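import Mathlib
import Pool.Agent.Helper11.Can.Defs

/-!
# Stability of the flags under linear maps and automorphisms (project CAN, L8 and L9)
-/

universe u

open Finset Matrix

namespace Pool.Agent.Helper11.Can

open Pool.Agent.Helper10.GIT Pool.Agent.Helper11.GIT

variable {P : ℕ} {d : Fin P → ℕ}

namespace L8

variable {κ : Type u} [Field κ]

/-- If `x` has zero coordinates below `a` in the basis `g`, and the matrix `k` is compatible with
the weights, then `k * g` has the same property. -/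
lemma mulVec_zero {n : ℕ} {k : Matrix (Fin n) (Fin n) κ} {γ : Fin n → ℝ} (hk : LeW k γ γ) {a : ℝ}
    {y : Fin n → κ} (hy : ∀ b, γ b < a → y b = 0) (b : Fin n) (hb : γ b < a) :
    k.mulVec y b = 0 := by
  rw [Matrix.mulVec, dotProduct]
  refine Finset.sum_eq_zero fun b' _ => ?_
  by_cases h : k b b' = 0
  · rw [h, zero_mul]
  · rw [hy b' (lt_of_le_of_lt (hk b b' h) hb), mul_zero]

lemma suppW_linear {A : Family d κ} {h ρ : Mats d κ}
    (hA : ∀ χ, ∀ z ∈ A χ, act (sh ρ χ) z ∈ Submodule.span κ (A χ)) :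
    suppW (fun c => h c * ρ c) A ⊆ suppW h A := by
  rintro ⟨χ, w⟩ ⟨z, hz, hzw⟩
  have h1 : sh (fun c => h c * ρ c) χ = sh h χ * sh ρ χ := rfl
  change act (sh (fun c => h c * ρ c) χ) z w ≠ 0 at hzw
  rw [h1, act_mul] at hzw
  by_contra hcon
  have hcon' : ∀ y ∈ A χ, act (sh h χ) y w = 0 := by
    intro y hy
    by_contra hne
    exact hcon ⟨y, hy, hne⟩
  apply hzw
  have hle : Submodule.span κ (A χ) ≤
      LinearMap.ker ((LinearMap.proj w : (Word d χ → κ) →ₗ[κ] κ) ∘ₗ act (sh h χ)) := by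
    rw [Submodule.span_le]
    intro y hy
    exact hcon' y hy
  exact hle (hA χ z hz)

lemma suppW_galois {A : Family d κ} {h : Mats d κ} (τ : κ ≃+* κ)
    (hA : ∀ χ, ∀ z ∈ A χ, (fun w => τ (z w)) = z) :
    suppW (fun c => (h c).map τ) A ⊆ suppW h A := by
  rintro ⟨χ, w⟩ ⟨z, hz, hzw⟩
  refine ⟨z, hz, fun hcon => hzw ?_⟩
  change act (sh h χ) z w = 0 at hcon
  change act (sh (fun c => (h c).map τ) χ) z w = 0
  have h2 : ∀ w', z w' = τ (z w') := fun w' => (congrFun (hA χ z hz) w').symm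
  rw [act_apply] at hcon ⊢
  rw [← map_zero τ, ← hcon, map_sum]
  refine Finset.sum_congr rfl fun w' _ => ?_
  rw [map_mul, map_prod, ← h2 w']
  rfl

end L8

/-- CAN-L8: stability under linear maps -/
theorem flag_linear {κ : Type u} [Field κ] {A N : Family d κ} {h : Mats d κ} {γ : WSpace d}
    (hcomp : ∀ {h₁ h₂ : Mats d κ} {γ₁ γ₂ : WSpace d}, (∀ h' γ', Adapted A N h' γ' → ‖γ₁‖ ≤ ‖γ'‖) →
      Adapted A N h₁ γ₁ → Adapted A N h₂ γ₂ → ‖γ₂‖ ≤ ‖γ₁‖ → ∀ c : Fin P,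
      LeW (h₂ c * (h₁ c)⁻¹) (fun a => γ₁ ⟨c, a⟩) (fun a => γ₂ ⟨c, a⟩))
    (ho : Optimal A N h γ) (ρ : Mats d κ) (hρ : ∀ c, (ρ c).det ≠ 0)
    (hA : ∀ χ, ∀ z ∈ A χ, act (sh ρ χ) z ∈ Submodule.span κ (A χ))
    (hN : ∀ χ, ∀ z ∈ N χ, act (sh ρ χ) z ∈ Submodule.span κ (N χ)) (c : Fin P) (a : ℝ)
    (x : Fin (d c) → κ) (hx : x ∈ flag h γ c a) : (ρ c).mulVec x ∈ flag h γ c a := by
  have hAd : Adapted A N (fun c => h c * ρ c) γ :=
    { det := fun c => by
        rw [Matrix.det_mul]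
        exact mul_ne_zero (ho.1.det c) (hρ c)
      sum := ho.1.sum
      nonneg := fun w hw => ho.1.nonneg w (L8.suppW_linear hA hw)
      one_le := fun w hw => ho.1.one_le w (L8.suppW_linear hN hw) }
  have hk := hcomp ho.2 ho.1 hAd le_rfl c
  intro b hb
  have h1 : (h c).mulVec ((ρ c).mulVec x) =
      (h c * ρ c * (h c)⁻¹).mulVec ((h c).mulVec x) := by
    rw [Matrix.mulVec_mulVec, Matrix.mulVec_mulVec, Matrix.mul_assoc (h c * ρ c),
      Matrix.nonsing_inv_mul _ (isUnit_iff_ne_zero.2 (ho.1.det c)), Matrix.mul_one]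
  rw [h1]
  exact L8.mulVec_zero hk (fun b' hb' => hx b' hb') b hb

/-- CAN-L9: stability under automorphisms of the field which fix the tensors -/
theorem flag_galois {κ : Type u} [Field κ] {A N : Family d κ} {h : Mats d κ} {γ : WSpace d}
    (hcomp : ∀ {h₁ h₂ : Mats d κ} {γ₁ γ₂ : WSpace d}, (∀ h' γ', Adapted A N h' γ' → ‖γ₁‖ ≤ ‖γ'‖) →
      Adapted A N h₁ γ₁ → Adapted A N h₂ γ₂ → ‖γ₂‖ ≤ ‖γ₁‖ → ∀ c : Fin P,
      LeW (h₂ c * (h₁ c)⁻¹) (fun a => γ₁ ⟨c, a⟩) (fun a => γ₂ ⟨c, a⟩))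
    (ho : Optimal A N h γ) (τ : κ ≃+* κ) (hA : ∀ χ, ∀ z ∈ A χ, (fun w => τ (z w)) = z)
    (hN : ∀ χ, ∀ z ∈ N χ, (fun w => τ (z w)) = z) (c : Fin P) (a : ℝ)
    (x : Fin (d c) → κ) (hx : x ∈ flag h γ c a) : (fun i => τ (x i)) ∈ flag h γ c a := by
  have hdet : ∀ c, ((h c).map τ).det ≠ 0 := fun c => by
    have h1 : ((h c).map τ).det = τ (h c).det := ((τ : κ →+* κ).map_det (h c)).symm
    rw [h1]
    exact (map_ne_zero τ).2 (ho.1.det c)
  have hAd : Adapted A N (fun c => (h c).map τ) γ :=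
    { det := hdet
      sum := ho.1.sum
      nonneg := fun w hw => ho.1.nonneg w (L8.suppW_galois τ hA hw)
      one_le := fun w hw => ho.1.one_le w (L8.suppW_galois τ hN hw) }
  have hk := hcomp ho.2 hAd ho.1 le_rfl c
  intro b hb
  have h1 : (h c).mulVec (fun i => τ (x i)) =
      (h c * ((h c).map τ)⁻¹).mulVec (((h c).map τ).mulVec (fun i => τ (x i))) := by
    rw [Matrix.mulVec_mulVec, Matrix.mul_assoc (h c),
      Matrix.nonsing_inv_mul _ (isUnit_iff_ne_zero.2 (hdet c)), Matrix.mul_one]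
  have h2 : ∀ b', ((h c).map τ).mulVec (fun i => τ (x i)) b' = τ ((h c).mulVec x b') := by
    intro b'
    rw [Matrix.mulVec, Matrix.mulVec, dotProduct, dotProduct, map_sum]
    refine Finset.sum_congr rfl fun i _ => ?_
    rw [map_mul, Matrix.map_apply]
  rw [h1]
  refine L8.mulVec_zero hk (fun b' hb' => ?_) b hb
  rw [h2, hx b' hb', map_zero]

end Pool.Agent.Helper11.Can
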